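import Pool.Agent.MP_7a723b_nt.ProdB

/-! Few factorials are nontrivial products of factorials (any number of factors). -/

namespace Pool.Agent.Results.MP_7a723b_nt.ManyFactorials

theorem result : ∃ C : ℝ, ∀ X : ℕ, 16 ≤ X →
    (Set.ncard {n : ℕ | n ≤ X ∧ ∃ s : Multiset ℕ, (∀ a ∈ s, 2 ≤ a ∧ a + 2 ≤ n) ∧
      (s.map Nat.factorial).prod = n.factorial} : ℝ)
      ≤ Real.exp (C * Real.log (Real.log X) ^ 10) :=
  Pool.Agent.H41Fact.many_factorials

end Pool.Agent.Results.MP_7a723b_nt.ManyFactorials
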