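import Pool.Agent.MP_7a723b_nt.Mg.PadicB

/-! Polylogarithmic bound for the set of `a` in nontrivial solutions of `a! b! = c!`. -/

namespace Pool.Agent.Results.MP_7a723b_nt.PolyLog

theorem result : ∃ C : ℝ, ∀ A : ℕ, 2 ≤ A →
    (Set.ncard {a : ℕ | a ≤ A ∧ ∃ b c : ℕ, 2 ≤ a ∧ a < b ∧ b + 2 ≤ c ∧
      a.factorial * b.factorial = c.factorial} : ℝ) ≤ C * Real.log A ^ 10 :=
  ⟨10 ^ 21, Pool.Agent.H79Fact.two_factorials⟩

end Pool.Agent.Results.MP_7a723b_nt.PolyLog
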