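import Pool.Agent.MP_7a723b_nt.Mg.Glob

/-! The discrepancy estimate of Q1 for all intervals of length at most `(A!)^(-δ)`,
with exponent `1 - c δ`. -/

namespace Pool.Agent.Results.MP_7a723b_nt.ShortIntervals

open Pool.Agent.MP_7a723b_nt

/-- the index set of the multiset `S_A`: pairs `(a, k)` with `2 ≤ a ≤ A`, `2 ≤ k ≤ 5 log log A` -/
noncomputable def pairs (A : ℕ) : Finset (ℕ × ℕ) :=
  Finset.Icc 2 A ×ˢ Finset.Icc 2 ⌊5 * Real.log (Real.log A)⌋₊

open Classical in
/-- the number of pairs whose fractional part `{(a!)^(1/k)}` lies in `I` -/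
noncomputable def hits (A : ℕ) (I : Set ℝ) : ℕ :=
  ((pairs A).filter fun p => Int.fract ((p.1.factorial : ℝ) ^ (1 / (p.2 : ℝ))) ∈ I).card

lemma abs_sub_le_vol {I : Set ℝ} (hI : I.OrdConnected) (hI1 : I ⊆ Set.Icc 0 1) {u v : ℝ}
    (hu : u ∈ I) (hv : v ∈ I) : |u - v| ≤ (MeasureTheory.volume I).toReal := by
  have h1 : MeasureTheory.volume I ≠ ⊤ :=
    ne_top_of_le_ne_top (by simp) (MeasureTheory.measure_mono hI1)
  have h2 := ENNReal.toReal_mono h1 (MeasureTheory.measure_mono (hI.uIcc_subset hv hu))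
  rwa [Real.volume_interval, ENNReal.toReal_ofReal (abs_nonneg _)] at h2

theorem result : ∃ c C : ℝ, 0 < c ∧ 0 < C ∧ ∃ A₀ : ℕ, ∀ A : ℕ, A₀ ≤ A →
    ∀ δ : ℝ, C * Real.log (Real.log A) / Real.log A ≤ δ → δ ≤ 1 →
    ∀ I : Set ℝ, I.OrdConnected → I ⊆ Set.Icc 0 1 →
      (MeasureTheory.volume I).toReal ≤ (A.factorial : ℝ) ^ (-δ) →
      |(hits A I : ℝ) - ((pairs A).card : ℝ) * (MeasureTheory.volume I).toReal| ≤
        ((pairs A).card : ℝ) ^ (1 - c * δ) := by
  classical
  refine ⟨1 / 160000, 160000, by norm_num, by norm_num, ⌈Real.exp 6⌉₊, ?_⟩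
  intro A hA δ hδ hδ1 I hI hI1 hlen
  have hAe : Real.exp 6 ≤ A := Nat.ceil_le.1 hA
  have hA7 : (7 : ℝ) ≤ A := by have := Real.add_one_le_exp (6 : ℝ); linarith
  have hA0 : (0 : ℝ) < A := by linarith
  have hA2 : 7 ≤ A := by exact_mod_cast hA7
  set l := Real.log A with hl
  have hl6 : 6 ≤ l := (Real.le_log_iff_exp_le hA0).2 hAe
  have hl0 : 0 < l := by linarith
  have hll : 1 ≤ Real.log l := by
    rw [Real.le_log_iff_exp_le hl0]
    have := Real.exp_one_lt_d9; linarith
  have hδl : 160000 * Real.log l ≤ δ * l := by rwa [div_le_iff₀ hl0] at hδ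
  have hδ0 : 0 < δ := by by_contra h; nlinarith
  set r : ℝ := (A : ℝ) ^ (δ / 80000) with hr
  have hr0 : 0 < r := by positivity
  have hrl : l ^ 2 ≤ r := by
    rw [hr, Real.rpow_def_of_pos hA0, ← Real.exp_log (show 0 < l ^ 2 by positivity), Real.log_pow]
    apply Real.exp_le_exp.2
    push_cast; linarith
  have hr1 : 1 ≤ r := by nlinarith
  have hrA : (r ^ 2) ^ 40000 = (A : ℝ) ^ δ := by
    rw [← pow_mul, hr, ← Real.rpow_natCast, ← Real.rpow_mul hA0.le]
    congr 1; push_cast; ring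
  have hy : 800 ≤ δ * r ^ 2 := by
    have h1 : l ≤ r ^ 2 := by nlinarith
    nlinarith
  set K := Finset.Icc 2 ⌊5 * Real.log l⌋₊ with hK
  have hcard : (pairs A).card = (A - 1) * K.card := by
    rw [pairs, Finset.card_product, Nat.card_Icc]; rfl
  have hK0 : 0 < K.card := by
    refine Finset.card_pos.2 ⟨2, Finset.mem_Icc.2 ⟨le_rfl, Nat.le_floor ?_⟩⟩
    push_cast; linarith
  have hkl : ∀ k ∈ K, (k : ℝ) ≤ 5 * l := by
    intro k hk
    have h1 := (Nat.le_floor_iff (by positivity)).1 (Finset.mem_Icc.1 hk).2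
    have h2 := Real.log_le_self hl0.le
    linarith
  have hlA : 5 * Real.log l ≤ A := by
    have h1 : Real.log l ≤ l - 1 := Real.log_le_sub_one_of_pos hl0
    have h2 : 1 + l + l ^ 2 / 2 ≤ A := by
      have := Real.quadratic_le_exp_of_nonneg hl0.le
      rwa [hl, Real.exp_log hA0] at this
    nlinarith
  have hKA : K.card ≤ A := by
    rw [hK, Nat.card_Icc]
    have : ⌊5 * Real.log l⌋₊ ≤ A := Nat.floor_le_of_le hlA
    omega
  set S : ℝ := ((pairs A).card : ℝ) with hS
  have hS' : S = ((A : ℝ) - 1) * K.card := by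
    rw [hS, hcard]; push_cast [Nat.cast_sub (show 1 ≤ A by omega)]; ring
  have hKpos : (0 : ℝ) < K.card := by exact_mod_cast hK0
  have hS0 : 0 < S := by rw [hS']; apply mul_pos <;> linarith
  have hSA : S ≤ (A : ℝ) ^ 2 := by
    have : (K.card : ℝ) ≤ A := by exact_mod_cast hKA
    rw [hS']; nlinarith
  have hmain : S / r ≤ S ^ (1 - 1 / 160000 * δ) := by
    rw [Real.rpow_sub hS0, Real.rpow_one]
    refine div_le_div_of_nonneg_left hS0.le (by positivity) ?_
    refine (Real.rpow_le_rpow hS0.le hSA (by positivity)).trans (le_of_eq ?_)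
    rw [← Real.rpow_natCast, ← Real.rpow_mul hA0.le, hr]
    congr 1; push_cast; ring
  have hf1 : (1 : ℝ) ≤ A.factorial := by exact_mod_cast Nat.factorial_pos A
  have h1 : S * (MeasureTheory.volume I).toReal ≤ S / r := by
    rw [div_eq_mul_inv]
    refine mul_le_mul_of_nonneg_left (hlen.trans ?_) hS0.le
    rw [Real.rpow_neg (by positivity)]
    refine inv_anti₀ hr0 ?_
    calc r ≤ (r ^ 2) ^ 40000 := by
          rw [← pow_mul]; exact le_self_pow₀ hr1 (by norm_num)
      _ = (A : ℝ) ^ δ := hrA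
      _ ≤ _ := Real.rpow_le_rpow hA0.le (by exact_mod_cast Nat.self_le_factorial A) hδ0.le
  have h2 : (hits A I : ℝ) ≤ S / r := by
    set F := (pairs A).filter fun p => Int.fract ((p.1.factorial : ℝ) ^ (1 / (p.2 : ℝ))) ∈ I
      with hF
    have hh : hits A I = F.card := by rw [hits, hF]
    rw [hh]
    rcases F.eq_empty_or_nonempty with h | ⟨p0, hp0⟩
    · rw [h]; simp; positivity
    set θ := Int.fract ((p0.1.factorial : ℝ) ^ (1 / (p0.2 : ℝ))) with hθ
    have hθI : θ ∈ I := (Finset.mem_filter.1 hp0).2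
    have hmaps : Set.MapsTo Prod.snd (F : Set (ℕ × ℕ)) (K : Set ℕ) := fun p hp =>
      (Finset.mem_product.1 (Finset.mem_filter.1 hp).1).2
    have hlog : (Nat.log 2 A + 1 : ℝ) ≤ 3 * l := by
      have h3 : ((2 ^ Nat.log 2 A : ℕ) : ℝ) ≤ A := by
        exact_mod_cast Nat.pow_log_le_self 2 (by omega)
      have h4 := Real.log_le_log (by positivity) h3
      push_cast at h4
      rw [Real.log_pow] at h4
      have h5 := Real.log_two_gt_d9
      have h6 : (0 : ℝ) ≤ Nat.log 2 A := Nat.cast_nonneg _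
      nlinarith
    have h3 : (F.card : ℝ) * r ^ 2 ≤ K.card * (A * (3 * l)) := by
      rw [Finset.card_eq_sum_card_fiberwise hmaps]
      push_cast
      rw [Finset.sum_mul, ← nsmul_eq_mul]
      refine Finset.sum_le_card_nsmul _ _ _ fun k hk => ?_
      have hk2 : 2 ≤ k := (Finset.mem_Icc.1 hk).1
      have hinj : Set.InjOn Prod.fst ((F.filter fun p => p.2 = k : Finset (ℕ × ℕ)) : Set (ℕ × ℕ)) :=
        fun p hp q hq h => Prod.ext h
          (((Finset.mem_filter.1 hp).2).trans ((Finset.mem_filter.1 hq).2).symm)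
      rw [← Finset.card_image_of_injOn hinj]
      refine (global_bound (θ := θ) hδ0 hδ1 hy hrA.le hk2 ((hkl k hk).trans (by nlinarith)) _
        fun a ha => ?_).trans (by gcongr)
      obtain ⟨p, hp, rfl⟩ := Finset.mem_image.1 ha
      obtain ⟨hpF, rfl⟩ := Finset.mem_filter.1 hp
      obtain ⟨hp1, hp2⟩ := Finset.mem_filter.1 hpF
      have hp3 := Finset.mem_Icc.1 (Finset.mem_product.1 hp1).1
      refine ⟨by omega, hp3.2, ⌊rt p.2 p.1⌋, ?_⟩
      have h4 := abs_sub_le_vol hI hI1 hp2 hθI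
      rw [one_div] at h4
      have h5 : rt p.2 p.1 - θ - ⌊rt p.2 p.1⌋ = Int.fract (rt p.2 p.1) - θ := by
        rw [Int.fract]; ring
      rw [h5]
      refine h4.trans (hlen.trans ?_)
      have hk1 : (1 : ℝ) ≤ p.2 := by exact_mod_cast (by omega : 1 ≤ p.2)
      calc (A.factorial : ℝ) ^ (-δ) ≤ (A.factorial : ℝ) ^ (-(δ / p.2)) :=
            Real.rpow_le_rpow_of_exponent_le hf1 (neg_le_neg (div_le_self hδ0.le hk1))
        _ ≤ _ := Real.rpow_le_rpow_of_nonpos (by exact_mod_cast Nat.factorial_pos _)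
            (by exact_mod_cast Nat.factorial_le hp3.2) (neg_nonpos.2 (by positivity))
    rw [le_div_iff₀ hr0]
    refine le_of_mul_le_mul_right ?_ hr0
    have h4 : (A : ℝ) * (3 * l) ≤ (A - 1) * r := by
      have h5 : 6 * l ≤ r := by nlinarith
      nlinarith
    calc (F.card : ℝ) * r * r = F.card * r ^ 2 := by ring
      _ ≤ K.card * (A * (3 * l)) := h3
      _ ≤ K.card * ((A - 1) * r) := by gcongr
      _ = S * r := by rw [hS']; ring
  have h3 : (0 : ℝ) ≤ hits A I := Nat.cast_nonneg _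
  have h4 : 0 ≤ S * (MeasureTheory.volume I).toReal := by positivity
  rw [abs_le]
  constructor <;> linarith

end Pool.Agent.Results.MP_7a723b_nt.ShortIntervals
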