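import Pool.Agent.MP_7a723b_nt.RothE

/-! If `n!` is a product of factorials, the largest argument is `n - o(log log n)` or more. -/

namespace Pool.Agent.Results.MP_7a723b_nt.SmallGap

theorem result : ∀ ε : ℝ, 0 < ε → ∃ n₀ : ℕ, ∀ n : ℕ, n₀ ≤ n → ∀ s : Multiset ℕ,
    (s.map Nat.factorial).prod = n.factorial →
    ∃ a ∈ s, (n : ℝ) - ε * Real.log (Real.log n) ≤ a := by
  intro ε hε
  obtain ⟨n₀, h⟩ := Pool.Agent.H41Roth.small_gap ε hε
  obtain ⟨n₁, h1⟩ := Filter.eventually_atTop.1 ((Real.tendsto_log_atTop.comp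
    (Real.tendsto_log_atTop.comp tendsto_natCast_atTop_atTop)).eventually_ge_atTop (1 / ε))
  refine ⟨n₀ + n₁, fun n hn s hp => ?_⟩
  by_cases hs : ∀ a ∈ s, a + 2 ≤ n
  · obtain ⟨b, hb, h2, -⟩ := h n (by omega) s hs hp
    exact ⟨b, hb, by linarith⟩
  · obtain ⟨a, ha⟩ := not_forall.1 hs
    obtain ⟨ha, h2⟩ := Classical.not_imp.1 ha
    have h3 : (n : ℝ) ≤ a + 1 := by exact_mod_cast (by omega : n ≤ a + 1)
    have h4 := h1 n (by omega)
    rw [div_le_iff₀ hε] at h4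
    simp only [Function.comp] at h4
    exact ⟨a, ha, by linarith⟩

end Pool.Agent.Results.MP_7a723b_nt.SmallGap
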